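import Pool.Agent.R639.FZ.Defs

/-! # Project FZ: growth of the solution of `z = 1 + F * z` -/

set_option autoImplicit false

namespace Pool.Agent.R860.FZ

open ArithmeticFunction Finset

theorem div_sum (m : ℕ) : ∑ d ∈ m.divisors with 2 ≤ d, (((d : ℝ)) ^ 2)⁻¹ ≤ 1 := by
  rcases Nat.eq_zero_or_pos m with h | h
  · subst h; simp
  · calc ∑ d ∈ m.divisors with 2 ≤ d, (((d : ℝ)) ^ 2)⁻¹ ≤ ∑ d ∈ Ioc 1 m, (((d : ℝ)) ^ 2)⁻¹ := by
          refine sum_le_sum_of_subset_of_nonneg (fun d hd => ?_) fun _ _ _ => by positivity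
          rw [mem_filter] at hd
          rw [mem_Ioc]
          exact ⟨hd.2, Nat.divisor_le hd.1⟩
      _ ≤ ((1 : ℕ) : ℝ)⁻¹ - (m : ℝ)⁻¹ := sum_Ioc_inv_sq_le_sub one_ne_zero h
      _ ≤ 1 := by
          have : 0 ≤ (m : ℝ)⁻¹ := by positivity
          simp

theorem F_lt {K n₁ : ℕ} (hn : 2 ≤ n₁) {F : ArithmeticFunction ℕ}
    (hF : ∀ m : ℕ, F m = if n₁ ≤ m then m ^ K else 0) {d : ℕ} (hd : ¬ 2 ≤ d) : F d = 0 := by
  rw [hF, if_neg (by omega)]

theorem F_le {K n₁ : ℕ} {F : ArithmeticFunction ℕ}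
    (hF : ∀ m : ℕ, F m = if n₁ ≤ m then m ^ K else 0) (d : ℕ) : F d ≤ d ^ K := by
  rw [hF]
  split_ifs
  · exact le_rfl
  · exact Nat.zero_le _

theorem zle {K n₁ : ℕ} (hn : 2 ≤ n₁) {F z : ArithmeticFunction ℕ}
    (hF : ∀ m : ℕ, F m = if n₁ ≤ m then m ^ K else 0) (hz : z = 1 + F * z) (m : ℕ) (hm : 1 ≤ m) :
    z m ≤ m ^ (K + 2) := by
  induction m using Nat.strong_induction_on with
  | _ m ih =>
    have h : z m = (1 : ArithmeticFunction ℕ) m + ∑ p ∈ m.divisorsAntidiagonal, F p.1 * z p.2 := by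
      conv_lhs => rw [hz]
      rw [ArithmeticFunction.add_apply, ArithmeticFunction.mul_apply]
    rcases eq_or_lt_of_le hm with h1 | h1
    · subst h1
      rw [h]
      simp [F_lt hn hF (d := 1) (by norm_num)]
    · have h2 : (z m : ℝ) ≤ (m : ℝ) ^ (K + 2) := by
        rw [h, one_apply_ne h1.ne', zero_add]
        push_cast
        calc ∑ p ∈ m.divisorsAntidiagonal, (F p.1 : ℝ) * z p.2
            ≤ ∑ p ∈ m.divisorsAntidiagonal,
              (if 2 ≤ p.1 then (m : ℝ) ^ (K + 2) * (((p.1 : ℕ) : ℝ) ^ 2)⁻¹ else 0) := by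
              refine sum_le_sum fun p hp => ?_
              obtain ⟨hpm, hm0⟩ := Nat.mem_divisorsAntidiagonal.1 hp
              split_ifs with h2
              · have hp2 : 1 ≤ p.2 := by
                  rcases Nat.eq_zero_or_pos p.2 with h0 | h0
                  · rw [h0, mul_zero] at hpm
                    exact absurd hpm.symm hm0
                  · exact h0
                have hp2' : p.2 < m := by nlinarith
                have i1 := ih p.2 hp2' hp2
                have i2 := F_le hF p.1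
                have i3 : F p.1 * z p.2 ≤ p.1 ^ K * p.2 ^ (K + 2) := Nat.mul_le_mul i2 i1
                have i4 : (F p.1 : ℝ) * z p.2 ≤ (p.1 : ℝ) ^ K * (p.2 : ℝ) ^ (K + 2) := by
                  exact_mod_cast i3
                refine i4.trans (le_of_eq ?_)
                have hp1 : (p.1 : ℝ) ≠ 0 := by
                  have : p.1 ≠ 0 := by omega
                  exact_mod_cast this
                rw [← hpm]
                push_cast
                rw [mul_pow, pow_add (p.1 : ℝ) K 2]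
                field_simp
              · rw [F_lt hn hF h2]
                simp
          _ = ∑ d ∈ m.divisors, (if 2 ≤ d then (m : ℝ) ^ (K + 2) * (((d : ℕ) : ℝ) ^ 2)⁻¹ else 0) :=
              Nat.sum_divisorsAntidiagonal
                (f := fun a _ => if 2 ≤ a then (m : ℝ) ^ (K + 2) * (((a : ℕ) : ℝ) ^ 2)⁻¹ else 0)
          _ ≤ (m : ℝ) ^ (K + 2) := by
              rw [← sum_filter, ← mul_sum]
              exact mul_le_of_le_one_right (by positivity) (div_sum m)
      exact_mod_cast h2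

end Pool.Agent.R860.FZ
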